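import Mathlib.Tactic

/-!
# H15FA, file FA: the combinatorial part of (FA) (plan B, branch I of MP_33911d_co)

A path `w_0 .. w_p`, a set `Z` of chords `w_s w_t` (`s + 2 <= t <= p`) which miss the path; `N s t` says that
the edge `w_s w_t` leaves `w_s` on the N-side. If `(0, p)` is not a chord, chords at `0` and at `p` have an
O-end at their inner end, no inner chord has two N-ends, and interleaving chords `s < x < t < y` do not have
two inner O-ends (at `t` and at `x`), then some `c`, `0 < c < p`, is not straddled by a chord.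

PROOF. Invariant `(x, y)`: a chord, `y < p`, O-end at `y`, no chord has `x'' <= x` and `y < y''`. Start: the
longest chord at `0`. Step: a chord `(x', y')` with `x' < y < y'` and `y'` maximal. So `y` grows for ever.
-/

set_option autoImplicit false

namespace H15FA

/-- the invariant -/
def Inv (p : ℕ) (Z N : ℕ → ℕ → Prop) (x y : ℕ) : Prop :=
  Z x y ∧ y < p ∧ ¬ N y x ∧ ∀ x' y', Z x' y' → x' ≤ x → y' ≤ y

theorem exists_max {p : ℕ} {P : ℕ → Prop} (hP : ∀ y, P y → y ≤ p) (h : ∃ y, P y) :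
    ∃ y, P y ∧ ∀ y', P y' → y' ≤ y := by
  classical
  obtain ⟨y, hy⟩ := h
  refine ⟨Nat.findGreatest P p, Nat.findGreatest_spec (hP y hy) hy, fun y' hy' => ?_⟩
  exact Nat.le_findGreatest (hP y' hy') hy'

theorem fa {p : ℕ} {Z N : ℕ → ℕ → Prop} (hp : 2 ≤ p)
    (h1 : ∀ s t, Z s t → s + 2 ≤ t ∧ t ≤ p)
    (h2 : ¬ Z 0 p)
    (h3 : ∀ t, t < p → Z 0 t → ¬ N t 0)
    (h4 : ∀ s, 0 < s → Z s p → ¬ N s p)
    (h5 : ∀ s t, 0 < s → t < p → Z s t → ¬ (N s t ∧ N t s))
    (hR : ∀ s x t y, s < x → x < t → t < y → Z s t → Z x y → N t s ∨ N x y)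
    (h6 : ∀ c, 0 < c → c < p → ∃ s t, Z s t ∧ s < c ∧ c < t) : False := by
  have step : ∀ x y, Inv p Z N x y → ∃ x' y', y < y' ∧ Inv p Z N x' y' := by
    rintro x y ⟨hz, hyp, hn, hmax⟩
    have hxy := h1 x y hz
    obtain ⟨y', ⟨x', hz', hx'y, hyy'⟩, hm⟩ : ∃ y', (∃ x', Z x' y' ∧ x' < y ∧ y < y') ∧
        ∀ y'', (∃ x', Z x' y'' ∧ x' < y ∧ y < y'') → y'' ≤ y' := by
      refine exists_max (p := p) (fun y'' h => ?_) ?_
      · obtain ⟨x', h, _⟩ := h
        exact (h1 _ _ h).2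
      · obtain ⟨s, t, h, hs, ht⟩ := h6 y (by omega) hyp
        exact ⟨t, s, h, hs, ht⟩
    have hxx' : x < x' := by
      by_contra h
      have := hmax x' y' hz' (by omega)
      omega
    have hN : N x' y' := by
      rcases hR x x' y y' hxx' hx'y hyy' hz hz' with h | h
      · exact absurd h hn
      · exact h
    have hx0 : 0 < x' := by omega
    have hy'p : y' < p := by
      rcases (h1 _ _ hz').2.lt_or_eq with h | h
      · exact h
      · subst h
        exact absurd hN (h4 x' hx0 hz')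
    refine ⟨x', y', hyy', hz', hy'p, fun h => h5 x' y' hx0 hy'p hz' ⟨hN, h⟩, ?_⟩
    intro x'' y'' hz'' hx''
    by_contra h
    have := hm y'' ⟨x'', hz'', by omega, by omega⟩
    omega
  have start : ∃ x y, Inv p Z N x y := by
    obtain ⟨y, hz, hm⟩ : ∃ y, Z 0 y ∧ ∀ y', Z 0 y' → y' ≤ y := by
      refine exists_max (p := p) (fun y h => (h1 _ _ h).2) ?_
      obtain ⟨s, t, h, hs, ht⟩ := h6 1 (by omega) (by omega)
      have : s = 0 := by omega
      subst this
      exact ⟨t, h⟩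
    have hyp : y < p := by
      rcases (h1 _ _ hz).2.lt_or_eq with h | h
      · exact h
      · subst h
        exact absurd hz h2
    refine ⟨0, y, hz, hyp, h3 y hyp hz, fun x' y' hz' hx' => ?_⟩
    have : x' = 0 := by omega
    subst this
    exact hm y' hz'
  have many : ∀ k : ℕ, ∃ x y, k ≤ y ∧ Inv p Z N x y := by
    intro k
    induction k with
    | zero =>
      obtain ⟨x, y, h⟩ := start
      exact ⟨x, y, by omega, h⟩
    | succ k ih =>
      obtain ⟨x, y, hk, h⟩ := ih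
      obtain ⟨x', y', h', h''⟩ := step x y h
      exact ⟨x', y', by omega, h''⟩
  obtain ⟨x, y, hk, h⟩ := many p
  have := h.2.1
  omega

/-- The same with the conclusion that some `c` is not straddled. -/
theorem fa_cut {p : ℕ} {Z N : ℕ → ℕ → Prop} (hp : 2 ≤ p)
    (h1 : ∀ s t, Z s t → s + 2 ≤ t ∧ t ≤ p)
    (h2 : ¬ Z 0 p)
    (h3 : ∀ t, t < p → Z 0 t → ¬ N t 0)
    (h4 : ∀ s, 0 < s → Z s p → ¬ N s p)
    (h5 : ∀ s t, 0 < s → t < p → Z s t → ¬ (N s t ∧ N t s))
    (hR : ∀ s x t y, s < x → x < t → t < y → Z s t → Z x y → N t s ∨ N x y) :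
    ∃ c, 0 < c ∧ c < p ∧ ∀ s t, Z s t → s < c → c < t → False := by
  by_contra h
  push Not at h
  refine fa hp h1 h2 h3 h4 h5 hR fun c hc hcp => ?_
  obtain ⟨s, t, hz, hs, ht, _⟩ := h c hc hcp
  exact ⟨s, t, hz, hs, ht⟩

end H15FA
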