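import Pool.Agent.Lib.H91LB.Defs

/-!
# H15FA, file LBiv: step (iv) of (LB) (leaf blocks, branch I of MP_33911d_co)

`Clean cross W F`: no cycle of `F` has vertices of `W` on both sides. Let `L` be a cycle of `F`, `a` on it, `b` off
it, and let `ab` miss the cycle. Then `ab` misses every edge of `F` with both ends on the cycle.

PROOF. Edge `xy`, `a` not on it: the arc of `L` from `x` to `y` without `a`, closed by `xy`, is a cycle of `F` with
`a` and `b` off it, so `ab` crosses it evenly; `ab` misses the arc.
-/

set_option autoImplicit false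
set_option linter.unusedSectionVars false

namespace H15FA

open Finset H98P H98Z H98M H91LB

variable {V : Type*} [Fintype V] [DecidableEq V]

theorem we_split : ∀ (l : List V) (y : V) (m : List V), we (l ++ y :: m) = we (l ++ [y]) ++ we (y :: m)
  | [], y, m => by
    rw [List.nil_append, List.nil_append, we, List.nil_append]
  | [a], y, m => by
    rw [List.singleton_append, List.singleton_append, we, we, we, List.singleton_append]
  | a :: b :: l, y, m => by
    have h := we_split (b :: l) y m
    rw [List.cons_append, List.cons_append, we, ← List.cons_append, h, List.cons_append, List.cons_append,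
      List.cons_append, we, List.cons_append]

/-- the edges of a cycle which starts at `x` -/
theorem ce_split (x : V) (M : List V) (y : V) (N : List V) :
    ce (x :: (M ++ y :: N)) = we (x :: (M ++ [y])) ++ we (y :: (N ++ [x])) := by
  rw [ce, List.append_assoc, List.cons_append, ← List.cons_append, we_split, List.cons_append]

theorem ce_snoc (x : V) (M : List V) (y : V) :
    ce (x :: (M ++ [y])) = we (x :: (M ++ [y])) ++ [s(y, x)] := by
  rw [ce_split, List.nil_append, we, we]

theorem mem_ce_rot (P Q : List V) (x : V) (e : Sym2 V) :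
    e ∈ ce (P ++ x :: Q) ↔ e ∈ ce (x :: (Q ++ P)) := by
  cases P with
  | nil => rw [List.nil_append, List.append_nil]
  | cons a P =>
    rw [List.cons_append, ce_split, ce_split, List.mem_append, List.mem_append, or_comm]

/-- a cycle of `F` made of an arc and one edge -/
theorem arc {cross : Sym2 V → Sym2 V → Prop} {W : Finset V} {F : Finset (Sym2 V)}
    (hC : Clean cross W F) {x y : V} {M : List V} (hn : (x :: (M ++ [y])).Nodup)
    (hF : ∀ e ∈ we (x :: (M ++ [y])), e ∈ F) (hxy : s(y, x) ∈ F) {a b : V} (ha : a ∈ W)
    (hb : b ∈ W) (haL : a ∉ x :: (M ++ [y])) (hbL : b ∉ x :: (M ++ [y]))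
    (hm : ∀ e ∈ we (x :: (M ++ [y])), ¬ cross s(a, b) e) : ¬ cross s(a, b) s(y, x) := by
  intro hc
  have h := hC (x :: (M ++ [y])) hn (fun e he => by
    rw [ce_snoc, List.mem_append, List.mem_singleton] at he
    rcases he with he | rfl
    · exact hF e he
    · exact hxy) a ha b hb haL hbL
  rw [cy_eq, ce_snoc, List.map_append, List.sum_append, List.map_singleton, List.sum_singleton,
    cr_one hc] at h
  have h0 : ((we (x :: (M ++ [y]))).map (cr cross s(a, b))).sum = 0 := by
    refine List.sum_eq_zero fun z hz => ?_
    rw [List.mem_map] at hz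
    obtain ⟨e, he, rfl⟩ := hz
    exact cr_zero (hm e he)
  rw [h0, zero_add] at h
  exact one_ne_zero h

/-- (iv) -/
theorem star {cross : Sym2 V → Sym2 V → Prop} (hG : Geo cross) {W : Finset V}
    {F : Finset (Sym2 V)} (hC : Clean cross W F) {L : List V} (hn : L.Nodup)
    (hLF : ∀ e ∈ ce L, e ∈ F) {a b : V} (ha : a ∈ W) (hb : b ∈ W) (haL : a ∈ L) (hbL : b ∉ L)
    (hm : ∀ e ∈ ce L, ¬ cross s(a, b) e) {x y : V} (hx : x ∈ L) (hy : y ∈ L) (hxy : s(x, y) ∈ F) :
    ¬ cross s(a, b) s(x, y) := by
  by_cases hax : a = x
  · subst hax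
    exact hG.adj a b y
  by_cases hay : a = y
  · subst hay
    rw [Sym2.eq_swap (a := x)]
    exact hG.adj a b x
  by_cases hne : x = y
  · subst hne
    intro h
    exact hG.loop x _ (hG.symm _ _ h)
  obtain ⟨P, Q, rfl⟩ := List.append_of_mem hx
  have hn' : (x :: (Q ++ P)).Nodup := by
    refine (List.Perm.nodup_iff ?_).1 hn
    exact List.perm_middle.trans (List.Perm.cons x List.perm_append_comm)
  have hmem : ∀ z, z ∈ P ++ x :: Q ↔ z ∈ x :: (Q ++ P) := by
    intro z
    simp only [List.mem_append, List.mem_cons]
    tauto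
  have hy' : y ∈ Q ++ P := by
    rcases List.mem_cons.1 ((hmem y).1 hy) with h | h
    · exact absurd h.symm hne
    · exact h
  obtain ⟨M, N, hMN⟩ := List.append_of_mem hy'
  have haL' := (hmem a).1 haL
  have hbL' : b ∉ x :: (Q ++ P) := fun h => hbL ((hmem b).2 h)
  have hLF' : ∀ e ∈ ce (x :: (Q ++ P)), e ∈ F := fun e he => hLF e ((mem_ce_rot P Q x e).2 he)
  have hm' : ∀ e ∈ ce (x :: (Q ++ P)), ¬ cross s(a, b) e := fun e he => hm e ((mem_ce_rot P Q x e).2 he)
  rw [hMN] at haL' hbL' hLF' hm' hn'
  rw [ce_split] at hLF' hm'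
  rw [List.mem_cons, List.mem_append, List.mem_cons] at haL' hbL'
  push Not at hbL'
  rw [List.nodup_cons, List.nodup_append] at hn'
  obtain ⟨hn1, hn2, hn3, hn4⟩ := hn'
  rw [List.nodup_cons] at hn3
  rw [List.mem_append, List.mem_cons] at hn1
  push Not at hn1
  obtain ⟨hb1, hb2, hb3, hb4⟩ := hbL'
  rcases haL' with h | h | h | h
  · exact absurd h hax
  · -- a in M: use the arc y N x
    have haN : a ∉ N := fun h2 => hn4 a h a (List.mem_cons_of_mem _ h2) rfl
    refine arc hC (x := y) (y := x) (M := N) (a := a) (b := b) ?_ (fun e he => hLF' e (List.mem_append_right _ he)) hxy ha hb ?_ ?_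
      (fun e he => hm' e (List.mem_append_right _ he))
    · rw [List.nodup_cons, List.nodup_append]
      refine ⟨?_, hn3.2, List.nodup_singleton x, ?_⟩
      · rw [List.mem_append, List.mem_singleton]
        push Not
        exact ⟨hn3.1, fun h2 => hne h2.symm⟩
      · intro z hz w hw
        rw [List.mem_singleton] at hw
        subst hw
        rintro rfl
        exact hn1.2.2 hz
    · rw [List.mem_cons, List.mem_append, List.mem_singleton]
      push Not
      exact ⟨hay, haN, hax⟩
    · rw [List.mem_cons, List.mem_append, List.mem_singleton]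
      push Not
      exact ⟨hb3, hb4, hb1⟩
  · exact absurd h hay
  · -- a in N: use the arc x M y
    have haM : a ∉ M := fun h2 => hn4 a h2 a (List.mem_cons_of_mem _ h) rfl
    rw [Sym2.eq_swap (a := x)] at hxy ⊢
    refine arc hC (x := x) (y := y) (M := M) (a := a) (b := b) ?_ (fun e he => hLF' e (List.mem_append_left _ he)) hxy ha hb ?_ ?_
      (fun e he => hm' e (List.mem_append_left _ he))
    · rw [List.nodup_cons, List.nodup_append]
      refine ⟨?_, hn2, List.nodup_singleton y, ?_⟩
      · rw [List.mem_append, List.mem_singleton]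
        push Not
        exact ⟨hn1.1, hne⟩
      · intro z hz w hw
        rw [List.mem_singleton] at hw
        subst hw
        rintro rfl
        exact hn4 z hz z List.mem_cons_self rfl
    · rw [List.mem_cons, List.mem_append, List.mem_singleton]
      push Not
      exact ⟨hax, haM, hay⟩
    · rw [List.mem_cons, List.mem_append, List.mem_singleton]
      push Not
      exact ⟨hb1, hb2, hb3⟩

end H15FA
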